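import Mathlib

set_option autoImplicit false
set_option maxHeartbeats 400000

namespace Pool.Agent.Results.MP_a762d4_al.Semilattices

open FirstOrder

/-- One binary function symbol. -/
inductive MulSym : ℕ → Type
  | mul : MulSym 2

/-- The first-order language of one binary operation. -/
def LMul : Language := ⟨MulSym, fun _ => Empty⟩

/-- A set with a multiplication as a structure for `LMul`. -/
@[reducible] def mulStructure (S : Type) [Mul S] : LMul.Structure S where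
  funMap := fun {_} f v => match f with | MulSym.mul => v 0 * v 1
  RelMap := fun {_} r _ => r.elim

/-- `S` satisfies the identical inclusion `I.1 ∈ I.2`. -/
def Satisfies (S : Type) [Semigroup S] (I : FreeSemigroup ℕ × Set (FreeSemigroup ℕ)) : Prop :=
  ∀ φ : FreeSemigroup ℕ →ₙ* S, ∃ v ∈ I.2, φ I.1 = φ v

inductive Pt : Type
  | al : ℕ → Pt
  | be : ℕ → Pt
  | ga : Pt
  | de : Pt
  | ep : ℕ → ℕ → Pt

def inc : Pt → Fin 6 × ℕ → Prop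
  | .al k, g => g.1 = 0 ∨ g.1 = 1 ∨ g.1 = 3 ∨ (4 ≤ g.1 ∧ g.2 = k)
  | .be k, g => g.1 = 0 ∨ g.1 = 1 ∨ g.1 = 2 ∨ (4 ≤ g.1 ∧ g.2 = k)
  | .ga, g => g.1 = 0 ∨ g.1 = 2 ∨ g.1 = 3 ∨ g.1 = 4
  | .de, g => g.1 = 1 ∨ g.1 = 2 ∨ g.1 = 3 ∨ g.1 = 5
  | .ep k l, g => g.1 = 2 ∨ g.1 = 3 ∨ (k ≠ l ∧ ((g.1 = 4 ∧ g.2 = k) ∨ (g.1 = 5 ∧ g.2 = l)))

def compat (g g' : Fin 6 × ℕ) : Prop := 4 ≤ g.1 → 4 ≤ g'.1 → g.2 = g'.2

lemma two_pts {g g' : Fin 6 × ℕ} {w w' : Pt} (h : w ≠ w') (h1 : inc w g) (h2 : inc w g')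
    (h3 : inc w' g) (h4 : inc w' g') : compat g g' := by
  intro a b
  cases w <;> cases w' <;> simp only [inc, ne_eq, Pt.al.injEq, Pt.be.injEq, Pt.ep.injEq,
    not_true_eq_false] at * <;> omega

def T (t : Fin 9) (c : Fin 6) : Bool :=
  Nat.testBit ([59, 55, 11, 7, 29, 46, 28, 44, 12].getD t 0) c

lemma trace (m : ℕ) (w : Pt) : ∃ t : Fin 9, ∀ c, inc w (c, m) ↔ T t c = true := by
  cases w with
  | al k =>
    by_cases h : m = k
    · exact ⟨0, fun c => by fin_cases c <;> simp [inc, h] <;> decide⟩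
    · exact ⟨2, fun c => by fin_cases c <;> simp [inc, h] <;> decide⟩
  | be k =>
    by_cases h : m = k
    · exact ⟨1, fun c => by fin_cases c <;> simp [inc, h] <;> decide⟩
    · exact ⟨3, fun c => by fin_cases c <;> simp [inc, h] <;> decide⟩
  | ga => exact ⟨4, fun c => by fin_cases c <;> simp [inc] <;> decide⟩
  | de => exact ⟨5, fun c => by fin_cases c <;> simp [inc] <;> decide⟩
  | ep k l =>
    by_cases h : k = l
    · exact ⟨8, fun c => by fin_cases c <;> simp [inc, h] <;> decide⟩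
    by_cases h1 : m = k
    · exact ⟨6, fun c => by fin_cases c <;> simp [inc, h, h1] <;> decide⟩
    by_cases h2 : m = l
    · exact ⟨7, fun c => by subst h2; fin_cases c <;> simp [inc, h, h1] <;> decide⟩
    · exact ⟨8, fun c => by fin_cases c <;> simp [inc, h, h1, h2] <;> decide⟩

lemma common (A : Set (Fin 6 × ℕ)) (h : ∀ g ∈ A, ∀ g' ∈ A, compat g g') :
    ∃ tr : Pt → Fin 9, ∀ g ∈ A, ∀ w, inc w g ↔ T (tr w) g.1 = true := by
  have h1 : ∀ (w : Pt) (g : Fin 6 × ℕ) (m : ℕ), ¬ 4 ≤ g.1 → (inc w g ↔ inc w (g.1, m)) := by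
    intro w g m hg
    cases w <;> simp only [inc] <;> omega
  obtain ⟨m, hm⟩ : ∃ m, ∀ g ∈ A, ∀ w, inc w g ↔ inc w (g.1, m) := by
    by_cases h2 : ∃ g ∈ A, 4 ≤ g.1
    · obtain ⟨g0, h3, h4⟩ := h2
      refine ⟨g0.2, fun g hg w => ?_⟩
      by_cases h5 : 4 ≤ g.1
      · rw [← h g hg g0 h3 h5 h4]
      · exact h1 _ _ _ h5
    · exact ⟨0, fun g hg w => h1 _ _ _ fun h5 => h2 ⟨g, hg, h5⟩⟩
  choose tr htr using trace m
  exact ⟨tr, fun g hg w => (hm g hg w).trans (htr w g.1)⟩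

set_option synthInstance.maxSize 8192 in
lemma fin1 : ∀ a b c d : Fin 6, (∃ t, T t a ∧ T t b ∧ T t c ∧ T t d) →
    (∃ t, ¬ T t a ∧ T t b ∧ T t c ∧ T t d) → (∃ t, T t a ∧ ¬ T t b ∧ T t c ∧ T t d) →
    (∃ t, T t a ∧ T t b ∧ ¬ T t c ∧ T t d) → (∃ t, T t a ∧ T t b ∧ T t c ∧ ¬ T t d) → False := by
  decide +kernel

set_option synthInstance.maxSize 8192 in
lemma fin2 : ∀ a b c d : Fin 6,
    (∃ t, ¬ T t a ∧ T t b ∧ T t c ∧ T t d) → (∃ t, T t a ∧ ¬ T t b ∧ T t c ∧ T t d) →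
    (∃ t, T t a ∧ T t b ∧ ¬ T t c ∧ T t d) → (∃ t, T t a ∧ T t b ∧ T t c ∧ ¬ T t d) →
    ∀ y z : Fin 6,
    (∃ t, ¬ T t a ∧ T t b ∧ T t c ∧ T t d ∧ T t z) → (∃ t, T t a ∧ ¬ T t b ∧ T t c ∧ T t d ∧ T t y) →
    (∃ t, T t a ∧ T t b ∧ ¬ T t c ∧ T t d ∧ T t y ∧ T t z) →
    (∃ t, T t a ∧ T t b ∧ T t c ∧ ¬ T t d ∧ T t y ∧ T t z) →
    (∃ t, T t c ∧ T t d ∧ T t y ∧ T t z) → False := by
  decide +kernel

lemma clA {a b c d : Fin 6 × ℕ} {w1 w2 w3 w4 : Pt}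
    (h1 : ¬ inc w1 a) (h2 : inc w1 b) (h3 : inc w1 c) (h4 : inc w1 d)
    (i1 : inc w2 a) (i2 : ¬ inc w2 b) (i3 : inc w2 c) (i4 : inc w2 d)
    (j1 : inc w3 a) (j2 : inc w3 b) (j3 : ¬ inc w3 c) (j4 : inc w3 d)
    (k1 : inc w4 a) (k2 : inc w4 b) (k3 : inc w4 c) (k4 : ¬ inc w4 d)
    (w : Pt) (l1 : inc w a) (l2 : inc w b) (l3 : inc w c) (l4 : inc w d) : False := by
  have n1 : w ≠ w1 := by rintro rfl; contradiction
  have n2 : w ≠ w2 := by rintro rfl; contradiction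
  have n3 : w ≠ w3 := by rintro rfl; contradiction
  obtain ⟨tr, ht⟩ := common {a, b, c, d} (by
    rintro _ (rfl | rfl | rfl | rfl) _ (rfl | rfl | rfl | rfl) <;>
      first
      | exact two_pts n1 ‹_› ‹_› ‹_› ‹_›
      | exact two_pts n2 ‹_› ‹_› ‹_› ‹_›
      | exact two_pts n3 ‹_› ‹_› ‹_› ‹_›)
  rw [ht a (by simp)] at h1 i1 j1 k1 l1
  rw [ht b (by simp)] at h2 i2 j2 k2 l2
  rw [ht c (by simp)] at h3 i3 j3 k3 l3
  rw [ht d (by simp)] at h4 i4 j4 k4 l4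
  exact fin1 a.1 b.1 c.1 d.1 ⟨_, l1, l2, l3, l4⟩ ⟨_, h1, h2, h3, h4⟩ ⟨_, i1, i2, i3, i4⟩
    ⟨_, j1, j2, j3, j4⟩ ⟨_, k1, k2, k3, k4⟩

lemma clB {a b c d y z : Fin 6 × ℕ} {w1 w2 w3 w4 w0 : Pt}
    (h0 : ∀ w, inc w a → inc w b → inc w c → inc w d → False)
    (h2 : inc w1 b) (h3 : inc w1 c) (h4 : inc w1 d) (h6 : inc w1 z)
    (i1 : inc w2 a) (i3 : inc w2 c) (i4 : inc w2 d) (i5 : inc w2 y)
    (j1 : inc w3 a) (j2 : inc w3 b) (j4 : inc w3 d) (j5 : inc w3 y) (j6 : inc w3 z)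
    (k1 : inc w4 a) (k2 : inc w4 b) (k3 : inc w4 c) (k5 : inc w4 y) (k6 : inc w4 z)
    (l3 : inc w0 c) (l4 : inc w0 d) (l5 : inc w0 y) (l6 : inc w0 z) : False := by
  have h1 : ¬ inc w1 a := fun h => h0 _ h h2 h3 h4
  have i2 : ¬ inc w2 b := fun h => h0 _ i1 h i3 i4
  have j3 : ¬ inc w3 c := fun h => h0 _ j1 j2 h j4
  have k4 : ¬ inc w4 d := fun h => h0 _ k1 k2 k3 h
  have n1 : w3 ≠ w4 := by rintro rfl; contradiction
  have n2 : w4 ≠ w0 := by rintro rfl; contradiction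
  have n3 : w3 ≠ w0 := by rintro rfl; contradiction
  have n4 : w4 ≠ w2 := by rintro rfl; contradiction
  have n5 : w3 ≠ w2 := by rintro rfl; contradiction
  have n6 : w4 ≠ w1 := by rintro rfl; contradiction
  have n7 : w3 ≠ w1 := by rintro rfl; contradiction
  have n8 : w1 ≠ w2 := by rintro rfl; contradiction
  obtain ⟨tr, ht⟩ := common {a, b, c, d, y, z} (by
    rintro _ (rfl | rfl | rfl | rfl | rfl | rfl) _ (rfl | rfl | rfl | rfl | rfl | rfl) <;>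
      first
      | exact two_pts n1 ‹_› ‹_› ‹_› ‹_›
      | exact two_pts n2 ‹_› ‹_› ‹_› ‹_›
      | exact two_pts n3 ‹_› ‹_› ‹_› ‹_›
      | exact two_pts n4 ‹_› ‹_› ‹_› ‹_›
      | exact two_pts n5 ‹_› ‹_› ‹_› ‹_›
      | exact two_pts n6 ‹_› ‹_› ‹_› ‹_›
      | exact two_pts n7 ‹_› ‹_› ‹_› ‹_›
      | exact two_pts n8 ‹_› ‹_› ‹_› ‹_›)
  rw [ht a (by simp)] at h1 i1 j1 k1
  rw [ht b (by simp)] at h2 i2 j2 k2
  rw [ht c (by simp)] at h3 i3 j3 k3 l3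
  rw [ht d (by simp)] at h4 i4 j4 k4 l4
  rw [ht y (by simp)] at i5 j5 k5 l5
  rw [ht z (by simp)] at h6 j6 k6 l6
  exact fin2 a.1 b.1 c.1 d.1 ⟨_, h1, h2, h3, h4⟩ ⟨_, i1, i2, i3, i4⟩
    ⟨_, j1, j2, j3, j4⟩ ⟨_, k1, k2, k3, k4⟩ y.1 z.1 ⟨_, h1, h2, h3, h4, h6⟩ ⟨_, i1, i2, i3, i4, i5⟩
    ⟨_, j1, j2, j3, j4, j5, j6⟩ ⟨_, k1, k2, k3, k4, k5, k6⟩ ⟨_, l3, l4, l5, l6⟩

def SS (n : ℕ) : Type :=
  {s : Set Pt // ∃ G : Set (Fin 6 × Fin (n + 1)), G.Nonempty ∧ s = {w | ∀ g ∈ G, inc w (g.1, g.2)}}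

instance (n : ℕ) : CommSemigroup (SS n) where
  mul s t := ⟨s.1 ∩ t.1, by
    obtain ⟨G, h1, h2⟩ := s.2
    obtain ⟨G', h3, h4⟩ := t.2
    refine ⟨G ∪ G', h1.inl, ?_⟩
    rw [h2, h4]
    ext w
    simp only [Set.mem_inter_iff, Set.mem_ofPred_eq, Set.mem_union, or_imp, forall_and]⟩
  mul_assoc a b c := Subtype.ext (Set.inter_assoc _ _ _)
  mul_comm a b := Subtype.ext (Set.inter_comm _ _)

lemma mul_val {n : ℕ} (s t : SS n) : (s * t).1 = s.1 ∩ t.1 := rfl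

def gen (n : ℕ) (i : ℕ) : SS n :=
  ⟨{w | inc w (⟨i % 6, by omega⟩, min (i / 6) n)},
    {(⟨i % 6, by omega⟩, ⟨min (i / 6) n, by omega⟩)}, Set.singleton_nonempty _, by simp⟩

instance (n : ℕ) : Nonempty (SS n) := ⟨gen n 0⟩

def X (i : ℕ) : FreeSemigroup ℕ := FreeSemigroup.of i

def VV : Set (FreeSemigroup ℕ) :=
  {v | v = X 1 * X 2 * X 3 ∨ v = X 0 * X 2 * X 3 ∨ v = X 0 * X 1 * X 3 ∨ v = X 0 * X 1 * X 2 ∨
    (∃ m, v = X 1 * X 2 * X 3 * X (6 * m + 5)) ∨ (∃ m, v = X 0 * X 2 * X 3 * X (6 * m + 4)) ∨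
    (∃ m, v = X 0 * X 1 * X 3 * X (6 * m + 4) * X (6 * m + 5)) ∨
    (∃ m, v = X 0 * X 1 * X 2 * X (6 * m + 4) * X (6 * m + 5)) ∨
    (∃ m l, m ≠ l ∧ v = X 2 * X 3 * X (6 * m + 4) * X (6 * l + 5))}

lemma sat (n : ℕ) : Satisfies (SS n) (X 0 * X 1 * X 2 * X 3, VV) := by
  intro φ
  by_contra hc
  push Not at hc
  have hG := fun i => (φ (X i)).2
  choose G hne hG using hG
  have hm : ∀ i w, w ∈ (φ (X i)).1 ↔ ∀ g ∈ G i, inc w (g.1, g.2) := fun i w => by rw [hG]; rfl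
  have hd : ∀ v ∈ VV, (φ (X 0 * X 1 * X 2 * X 3)).1 ⊆ (φ v).1 →
      ∃ w ∈ (φ v).1, w ∉ (φ (X 0 * X 1 * X 2 * X 3)).1 := by
    intro v hv h
    by_contra h1
    push Not at h1
    exact hc v hv (Subtype.ext (Set.Subset.antisymm h h1))
  simp only [map_mul, mul_val] at hd
  obtain ⟨w1, h1, h1'⟩ := hd (X 1 * X 2 * X 3) (Or.inl rfl)
    (by simp only [map_mul, mul_val]; grind)
  obtain ⟨w2, h2, h2'⟩ := hd (X 0 * X 2 * X 3) (Or.inr (Or.inl rfl))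
    (by simp only [map_mul, mul_val]; grind)
  obtain ⟨w3, h3, h3'⟩ := hd (X 0 * X 1 * X 3) (Or.inr (Or.inr (Or.inl rfl)))
    (by simp only [map_mul, mul_val]; grind)
  obtain ⟨w4, h4, h4'⟩ := hd (X 0 * X 1 * X 2) (Or.inr (Or.inr (Or.inr (Or.inl rfl))))
    (by simp only [map_mul, mul_val]; grind)
  simp only [map_mul, mul_val, Set.mem_inter_iff] at h1 h2 h3 h4 h1' h2' h3' h4'
  have e1 : w1 ∉ (φ (X 0)).1 := by tauto
  have e2 : w2 ∉ (φ (X 1)).1 := by tauto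
  have e3 : w3 ∉ (φ (X 2)).1 := by tauto
  have e4 : w4 ∉ (φ (X 3)).1 := by tauto
  simp only [hm] at h1 h2 h3 h4 e1 e2 e3 e4
  push Not at e1 e2 e3 e4
  obtain ⟨a, ha, a1⟩ := e1
  obtain ⟨b, hb, b1⟩ := e2
  obtain ⟨c, hc, c1⟩ := e3
  obtain ⟨d, hd', d1⟩ := e4
  have h0 := clA a1 (h1.1.1 b hb) (h1.1.2 c hc) (h1.2 d hd') (h2.1.1 a ha) b1 (h2.1.2 c hc)
    (h2.2 d hd') (h3.1.1 a ha) (h3.1.2 b hb) c1 (h3.2 d hd') (h4.1.1 a ha) (h4.1.2 b hb)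
    (h4.2 c hc) d1
  have he : ∀ v ∈ VV, ∃ w, w ∈ (φ v).1 := by
    intro v hv
    obtain ⟨w, hw, -⟩ := hd v hv (by
      rintro w ⟨⟨⟨f1, f2⟩, f3⟩, f4⟩
      exact (h0 w ((hm _ _).mp f1 a ha) ((hm _ _).mp f2 b hb) ((hm _ _).mp f3 c hc)
        ((hm _ _).mp f4 d hd')).elim)
    exact ⟨w, hw⟩
  choose y hy using hne
  obtain ⟨m, l, hml, h5⟩ := Finite.exists_ne_map_eq_of_infinite
    (fun m : ℕ => (y (6 * m + 4), y (6 * m + 5)))
  have h6 : y (6 * m + 5) = y (6 * l + 5) := congrArg Prod.snd h5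
  obtain ⟨t1, g1⟩ := he (X 1 * X 2 * X 3 * X (6 * m + 5))
    (Or.inr (Or.inr (Or.inr (Or.inr (Or.inl ⟨m, rfl⟩)))))
  obtain ⟨t2, g2⟩ := he (X 0 * X 2 * X 3 * X (6 * m + 4))
    (Or.inr (Or.inr (Or.inr (Or.inr (Or.inr (Or.inl ⟨m, rfl⟩))))))
  obtain ⟨t3, g3⟩ := he (X 0 * X 1 * X 3 * X (6 * m + 4) * X (6 * m + 5))
    (Or.inr (Or.inr (Or.inr (Or.inr (Or.inr (Or.inr (Or.inl ⟨m, rfl⟩)))))))
  obtain ⟨t4, g4⟩ := he (X 0 * X 1 * X 2 * X (6 * m + 4) * X (6 * m + 5))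
    (Or.inr (Or.inr (Or.inr (Or.inr (Or.inr (Or.inr (Or.inr (Or.inl ⟨m, rfl⟩))))))))
  obtain ⟨t0, g0⟩ := he (X 2 * X 3 * X (6 * m + 4) * X (6 * l + 5))
    (Or.inr (Or.inr (Or.inr (Or.inr (Or.inr (Or.inr (Or.inr (Or.inr (⟨m, l, hml, rfl⟩)))))))))
  simp only [map_mul, mul_val, Set.mem_inter_iff, hm] at g1 g2 g3 g4 g0
  exact clB h0 (g1.1.1.1 b hb) (g1.1.1.2 c hc) (g1.1.2 d hd') (g1.2 _ (hy _))
    (g2.1.1.1 a ha) (g2.1.1.2 c hc) (g2.1.2 d hd') (g2.2 _ (hy _))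
    (g3.1.1.1.1 a ha) (g3.1.1.1.2 b hb) (g3.1.1.2 d hd') (g3.1.2 _ (hy _)) (g3.2 _ (hy _))
    (g4.1.1.1.1 a ha) (g4.1.1.1.2 b hb) (g4.1.1.2 c hc) (g4.1.2 _ (hy _)) (g4.2 _ (hy _))
    (g0.1.1.1 c hc) (g0.1.1.2 d hd') (g0.1.2 _ (hy _)) (h6 ▸ g0.2 _ (hy _))

lemma unsat (v : FreeSemigroup ℕ) (hv : v ∈ VV) : ∀ᶠ n in Filter.atTop,
    FreeSemigroup.lift (gen n) (X 0 * X 1 * X 2 * X 3) ≠ FreeSemigroup.lift (gen n) v := by
  have h0 : ∀ n w, w ∉ (FreeSemigroup.lift (gen n) (X 0 * X 1 * X 2 * X 3)).1 := by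
    intro n w
    cases w <;> simp [X, mul_val, gen, inc]
  suffices h : ∀ᶠ n in Filter.atTop, ∃ w, w ∈ (FreeSemigroup.lift (gen n) v).1 by
    filter_upwards [h] with n ⟨w, hw⟩ h1
    exact h0 n w (h1 ▸ hw)
  have e4 : ∀ m, (6 * m + 4) % 6 = 4 := by omega
  have e5 : ∀ m, (6 * m + 5) % 6 = 5 := by omega
  have f4 : ∀ m, (6 * m + 4) / 6 = m := by omega
  have f5 : ∀ m, (6 * m + 5) / 6 = m := by omega
  rcases hv with rfl | rfl | rfl | rfl | ⟨m, rfl⟩ | ⟨m, rfl⟩ | ⟨m, rfl⟩ | ⟨m, rfl⟩ | ⟨m, l, h, rfl⟩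
  · exact .of_forall fun n => ⟨.de, by simp [X, mul_val, gen, inc]⟩
  · exact .of_forall fun n => ⟨.ga, by simp [X, mul_val, gen, inc]⟩
  · exact .of_forall fun n => ⟨.al 0, by simp [X, mul_val, gen, inc]⟩
  · exact .of_forall fun n => ⟨.be 0, by simp [X, mul_val, gen, inc]⟩
  · exact .of_forall fun n => ⟨.de, by simp [X, mul_val, gen, inc, e5]⟩
  · exact .of_forall fun n => ⟨.ga, by simp [X, mul_val, gen, inc, e4]⟩
  · exact .of_forall fun n => ⟨.al (min m n), by simp [X, mul_val, gen, inc, e4, e5, f4, f5]⟩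
  · exact .of_forall fun n => ⟨.be (min m n), by simp [X, mul_val, gen, inc, e4, e5, f4, f5]⟩
  · filter_upwards [Filter.eventually_ge_atTop m, Filter.eventually_ge_atTop l] with n h1 h2
    exact ⟨.ep m l, by simp [X, mul_val, gen, inc, e4, e5, f4, f5, h, h1, h2]⟩

noncomputable def UC : Con (∀ n, SS n) where
  toSetoid := (Filter.hyperfilter ℕ : Filter ℕ).productSetoid SS
  mul' := fun h1 h2 => by
    filter_upwards [h1, h2] with n h3 h4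
    simp [h3, h4]

theorem result : ∃ A : Set (FreeSemigroup ℕ × Set (FreeSemigroup ℕ)), (∀ I ∈ A, I.2.Nonempty) ∧
    (∀ (S : Type) [Semigroup S], (∀ I ∈ A, Satisfies S I) →
      ∀ x y : S, x * x = x ∧ x * y = y * x) ∧
    ¬ ∃ T : LMul.Theory, ∀ (S : Type) [Semigroup S] [Nonempty S],
      (∀ I ∈ A, Satisfies S I) ↔ @Language.Theory.Model LMul S (mulStructure S) T := by
  refine ⟨{(X 0 * X 0, {X 0}), (X 0 * X 1, {X 1 * X 0}), (X 0 * X 1 * X 2 * X 3, VV)}, ?_, ?_, ?_⟩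
  · rintro _ (rfl | rfl | rfl)
    · simp
    · simp
    · exact ⟨_, Or.inl rfl⟩
  · intro S _ h x y
    have h1 := h _ (Or.inl rfl) (FreeSemigroup.lift fun _ => x)
    have h2 := h _ (Or.inr (Or.inl rfl)) (FreeSemigroup.lift fun i => if i = 0 then x else y)
    exact ⟨by simpa [X] using h1, by simpa [X] using h2⟩
  · rintro ⟨T, hT⟩
    let : ∀ n, LMul.Structure (SS n) := fun n => mulStructure (SS n)
    have h1 : ∀ n, SS n ⊨ T := fun n => (hT (SS n)).mp (by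
      rintro _ (rfl | rfl | rfl)
      · exact fun φ => ⟨_, rfl, by rw [map_mul]; exact Subtype.ext (Set.inter_self _)⟩
      · exact fun φ => ⟨_, rfl, by rw [map_mul, map_mul, mul_comm]⟩
      · exact sat n)
    have h2 : (Filter.hyperfilter ℕ : Filter ℕ).Product SS ⊨ T :=
      ⟨fun φ hφ => (Language.Ultraproduct.sentence_realize φ).mpr
        (.of_forall fun n => (h1 n).realize_of_mem φ hφ)⟩
    have h3 : mulStructure UC.Quotient =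
        (Language.Ultraproduct.structure : LMul.Structure ((Filter.hyperfilter ℕ : Filter ℕ).Product SS)) := by
      refine Language.Structure.ext ?_ ?_
      · funext k f v
        cases f
        choose x hx using fun i => Quotient.exists_rep (v i)
        obtain rfl : v = fun i => (x i : (Filter.hyperfilter ℕ : Filter ℕ).Product SS) :=
          funext fun i => (hx i).symm
        exact (Language.Ultraproduct.funMap_cast (L := LMul) MulSym.mul x).symm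
      · funext k r
        exact r.elim
    have : Nonempty UC.Quotient := ⟨(fun n => gen n 0 : ∀ n, SS n)⟩
    have h4 := (hT UC.Quotient).mpr (by rw [h3]; exact h2) _ (Or.inr (Or.inr rfl))
    obtain ⟨v, hv, h5⟩ := h4 (UC.mkMulHom.comp (FreeSemigroup.lift fun i n => gen n i))
    have h6 : ∀ (w : FreeSemigroup ℕ) (n : ℕ), (FreeSemigroup.lift fun i n => gen n i) w n =
        FreeSemigroup.lift (gen n) w := by
      intro w n
      induction w with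
      | ih1 i => rfl
      | ih2 i w h7 h8 => rw [map_mul, map_mul, Pi.mul_apply, h7, h8]
    have h7 : ∀ᶠ n in (Filter.hyperfilter ℕ : Filter ℕ), _ = _ := Quotient.exact h5
    obtain ⟨n, h8, h9⟩ := (h7.and ((unsat v hv).filter_mono
      (Nat.hyperfilter_le_atTop))).exists
    rw [h6, h6] at h8
    exact h9 h8

end Pool.Agent.Results.MP_a762d4_al.Semilattices
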